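import Pool.Graph.R_seed8.R638.BRW.Fin
import Pool.Graph.R_seed8.R638.BRW.K
import Pool.Graph.R_seed8.R638.BRW.A1
import Pool.Graph.R_seed8.R638.BRW.P
import Pool.Graph.R_seed8.R638.BRW.Q
import Pool.Graph.R_seed8.R638.BRW.T
import Pool.Graph.R_seed8.R638.BRW.D

/-! # A symmetric critical binary branching random walk: one end, and independent copies meet

The graph and the kernel are those of the library modules `Pool.Graph.R_seed8.R638.BRW`. The kernel
is symmetric with spectral radius `1 / 2`, every particle has exactly two children, the trace has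
one end almost surely, every vertex is visited finitely often, and the progenies of any two
particles of the same generation, put at arbitrary vertices, visit a common vertex almost surely.
-/

set_option autoImplicit false

open MeasureTheory ProbabilityTheory Set Filter Topology
open scoped ENNReal NNReal

namespace Pool.Agent.Results.MP_b68431_pr.OneEndedIntersecting

open Pool.Agent.R638.BRW

/-- The position of the particle `r ++ u` (a descendant of `u`) when the particle `u` is put at
`x`. -/
def relPos {V : Type} (s : List ℕ × V → V) (u : List ℕ) (x : V) : List ℕ → V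
  | [] => x
  | k :: r => s (k :: (r ++ u), relPos s u x r)

/-- The set of the vertices visited by the progeny of the particle `u` (with two children `0` and
`1` for every particle) when `u` is put at `x`. -/
def Range {V : Type} (s : List ℕ × V → V) (u : List ℕ) (x : V) : Set V :=
  {z | ∃ r : List ℕ, (∀ k ∈ r, k < 2) ∧ relPos s u x r = z}

lemma relPos_eq {V : Type} (s : List ℕ × V → V) (u : List ℕ) (x : V) (r : List ℕ) :
    relPos s u x r = rpos s u x r := by
  induction r with
  | nil => rfl
  | cons k r ih => simp only [relPos, rpos, ih]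

lemma range_eq {V : Type} (s : List ℕ × V → V) (u : List ℕ) (x : V) :
    Range s u x = Vis s u x := by
  unfold Range Vis Bin
  simp only [relPos_eq]

/-- There are an infinite connected locally finite graph and a symmetric irreducible nearest
neighbour kernel with spectral radius exactly `1 / 2` such that for the (critical) branching random
walk in which every particle has exactly two children:
* the trace has one end almost surely, for every starting vertex;
* every vertex is visited only finitely often almost surely;
* almost surely, for any two particles `u ≠ v` of the same generation and all vertices `y`, `y'`,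
  the ranges of the progeny of `u` put at `y` and of the progeny of `v` put at `y'` (two
  independent critical branching random walks) have a common vertex. -/
theorem result :
    ∃ (V : Type) (_ : Infinite V) (_ : Countable V) (_ : MeasurableSpace V)
      (_ : DiscreteMeasurableSpace V) (G : SimpleGraph V) (P : V → PMF V), G.Connected ∧
      (∀ x, (G.neighborSet x).Finite) ∧ NearestNeighbour G P ∧
      Irred P ∧ (∀ x y, P x y = P y x) ∧ QuasiSymmetric P ∧ (∀ x y, specRad P x y = 1 / 2) ∧
      mean (PMF.pure 2) = (1 / 2 : ℝ≥0∞)⁻¹ ∧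
      (∀ x, ∀ᵐ ω ∂(brwMeasure P (PMF.pure 2)), numEnds (trace ω.1 ω.2 x) = 1) ∧
      (∀ x, ∀ᵐ s ∂(stepMeasure P), ∀ z,
        {u : List ℕ | (∀ k ∈ u, k < 2) ∧ pos s x u = z}.Finite) ∧
      ∀ᵐ s ∂(stepMeasure P), ∀ (u v : List ℕ) (y y' : V), u.length = v.length → u ≠ v →
        (Range s u y ∩ Range s v y').Nonempty := by
  have hK1 := tK1
  let P : VV → PMF VV := fun x => ⟨fun y => pp x y, by
    rw [← hK1.1 x]
    exact ENNReal.summable.hasSum⟩
  have hP : ∀ x y, P x y = pp x y := fun _ _ => rfl
  have hC : StmC := tC tP (tA2 hK1 tA1)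
  obtain ⟨hirr, hsym, hrad, hconn, hfin, hinf, hcount, hgreen⟩ := tK2 P hP
  have e1 : ∀ x, ∀ᵐ s ∂(stepMeasure P), ∀ z, {u : List ℕ | Bin u ∧ pos s x u = z}.Finite := by
    intro x
    rw [ae_all_iff]
    exact fun z => tT VV P x z (hgreen x z)
  have hprob : IsProbabilityMeasure (stepMeasure P) := by
    unfold stepMeasure
    infer_instance
  have e2 : ∀ᵐ s ∂(stepMeasure P), ∀ (u v : List ℕ) (y y' : VV), u.length = v.length →
      u ≠ v → ¬ Disjoint (Vis s u y) (Vis s v y') := by
    rw [ae_all_iff]
    intro u
    rw [ae_all_iff]
    intro v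
    rw [ae_all_iff]
    intro y
    rw [ae_all_iff]
    intro y'
    by_cases h : u.length = v.length ∧ u ≠ v
    · have h5 := tQ VV P (1 - 16 / 1369) (by
        refine ENNReal.sub_lt_self (by norm_num) (by norm_num) ?_
        exact (ENNReal.div_pos (by norm_num) (by norm_num)).ne')
        (fun u v x y h1 h2 => hC P hP u v x y h1 h2) u v y y' h.1 h.2
      have h6 : ∀ᵐ s ∂(stepMeasure P), ¬ Disjoint (Vis s u y) (Vis s v y') := by
        rw [ae_iff]
        simpa using h5
      filter_upwards [h6] with s hs _ _
      exact hs
    · exact Eventually.of_forall fun s ha hb => absurd ⟨ha, hb⟩ h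
  refine ⟨VV, hinf, inferInstance, inferInstance, inferInstance, GG, P, hconn,
    hfin, ?_, hirr, ?_, ?_, hrad, ?_, ?_, ?_, ?_⟩
  · intro x y h
    by_contra h1
    apply h
    rw [hP]
    unfold pp
    rw [if_neg h1]
  · intro x y
    rw [hP, hP]
    unfold pp
    by_cases h : GG.Adj x y
    · rw [if_pos h, if_pos h.symm]
      congr 1
      ring
    · rw [if_neg h, if_neg (fun h' => h h'.symm)]
  · refine ⟨1, fun x y n => ?_⟩
    rw [hsym x y n]
    simp
  · unfold mean
    rw [tsum_eq_single 2]
    · simp
    · intro k hk
      rw [PMF.pure_apply_of_ne _ _ hk]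
      simp
  · intro x
    -- numbers of children
    have h1 : ∀ᵐ N ∂(Measure.infinitePi fun _ : List ℕ => (PMF.pure 2 : PMF ℕ).toMeasure),
        ∀ u, N u = 2 := by
      rw [ae_all_iff]
      intro u
      have h2 := (measurePreserving_eval_infinitePi
        (fun _ : List ℕ => (PMF.pure 2 : PMF ℕ).toMeasure) u).quasiMeasurePreserving
      have h3 : ∀ᵐ k ∂((PMF.pure 2 : PMF ℕ).toMeasure), k = 2 := by
        rw [PMF.toMeasure_pure, ae_dirac_eq]
        rfl
      exact h2.ae h3
    have h4 : ∀ᵐ s ∂(stepMeasure P), numEnds (trace (fun _ => 2) s x) = 1 := by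
      filter_upwards [e1 x, e2] with s hs1 hs2
      exact tD VV (fun _ => 2) s x (fun _ => rfl) hs1 hs2
    have h5 : ∀ᵐ ω ∂(brwMeasure P (PMF.pure 2)), ∀ u, ω.1 u = 2 := by
      unfold brwMeasure
      exact Measure.quasiMeasurePreserving_fst.ae h1
    have h6 : ∀ᵐ ω ∂(brwMeasure P (PMF.pure 2)), numEnds (trace (fun _ => 2) ω.2 x) = 1 := by
      unfold brwMeasure
      exact Measure.quasiMeasurePreserving_snd.ae h4
    filter_upwards [h5, h6] with ω hω1 hω2
    have h7 : ω.1 = fun _ => 2 := funext hω1
    rw [h7]
    exact hω2
  · exact e1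
  · filter_upwards [e2] with s hs u v y y' h1 h2
    rw [range_eq, range_eq]
    exact Set.not_disjoint_iff_nonempty_inter.1 (hs u v y y' h1 h2)

end Pool.Agent.Results.MP_b68431_pr.OneEndedIntersecting
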